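import Pool.Agent.Y787.CH.Stm

set_option autoImplicit false

/-! Transfer of ages along an injection of signatures (helper475, for helper787). -/

namespace Pool.Agent.Y475.CH

open Pool.Agent.Results.MP_2feb70_lc.CountableHeights Pool.Agent.Y787.CH Function

universe u

section

variable {I I' : Type u} {ar : I → ℕ} {ar' : I' → ℕ} (j : I → I') (hle : ∀ i, ar i ≤ ar' (j i))

/-- the transferred structure -/
def T (A : FinStr I ar) : FinStr I' ar' :=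
  ⟨A.1, fun i' => {t | ∃ (i : I) (h : j i = i'),
    (fun k : Fin (ar i) => t (Fin.castLE ((hle i).trans_eq (congrArg ar' h)) k)) ∈ A.2 i}⟩

theorem mem_T (hj : Injective j) (A : FinStr I ar) (i : I) (t : Fin (ar' (j i)) → Fin A.1) :
    t ∈ (T j hle A).2 (j i) ↔ (fun k : Fin (ar i) => t (Fin.castLE (hle i) k)) ∈ A.2 i := by
  constructor
  · rintro ⟨i₁, h, h1⟩
    have h2 : i₁ = i := hj h
    subst h2
    exact h1
  · intro h
    exact ⟨i, rfl, h⟩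

theorem map_T (A B : FinStr I ar) (f : Fin A.1 → Fin B.1)
    (h : ∀ (i : I) (t : Fin (ar i) → Fin A.1), t ∈ A.2 i ↔ f ∘ t ∈ B.2 i)
    (i' : I') (t : Fin (ar' i') → Fin A.1) :
    t ∈ (T j hle A).2 i' ↔ (f ∘ t : Fin (ar' i') → Fin B.1) ∈ (T j hle B).2 i' := by
  constructor
  · rintro ⟨i, h1, h2⟩
    exact ⟨i, h1, (h _ _).1 h2⟩
  · rintro ⟨i, h1, h2⟩
    exact ⟨i, h1, (h _ _).2 h2⟩

theorem emb_T {A B : FinStr I ar} (h : Emb A B) : Emb (T j hle A) (T j hle B) := by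
  obtain ⟨f, hf, hf'⟩ := h
  exact ⟨f, hf, map_T j hle A B f hf'⟩

theorem emb_of_T' (hj : Injective j) (hpos : ∀ i, 0 < ar i) {A B : FinStr I ar}
    (f : Fin A.1 → Fin B.1)
    (hf' : ∀ (i' : I') (t : Fin (ar' i') → Fin A.1),
      t ∈ (T j hle A).2 i' ↔ (f ∘ t : Fin (ar' i') → Fin B.1) ∈ (T j hle B).2 i')
    (i : I) (s : Fin (ar i) → Fin A.1) : s ∈ A.2 i ↔ f ∘ s ∈ B.2 i := by
  let t : Fin (ar' (j i)) → Fin A.1 := fun k =>
    if h : k.1 < ar i then s ⟨k.1, h⟩ else s ⟨0, hpos i⟩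
  have ht : (fun k : Fin (ar i) => t (Fin.castLE (hle i) k)) = s := by
    funext k
    have hk : (Fin.castLE (hle i) k).1 < ar i := k.2
    simp only [t]
    rw [dif_pos hk]
    rfl
  have h1 := hf' (j i) t
  have h0 := mem_T j hle hj A i t
  have h2 := mem_T j hle hj B i (f ∘ t)
  have h3 : (fun k : Fin (ar i) => (f ∘ t) (Fin.castLE (hle i) k)) = f ∘ s := by
    conv_rhs => rw [← ht]
    rfl
  rw [h3] at h2
  rw [ht] at h0
  exact h0.symm.trans (h1.trans h2)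

theorem emb_of_T (hj : Injective j) (hpos : ∀ i, 0 < ar i) {A B : FinStr I ar}
    (h : Emb (T j hle A) (T j hle B)) : Emb A B := by
  obtain ⟨f, hf, hf'⟩ := h
  exact ⟨f, hf, emb_of_T' j hle hj hpos f hf'⟩

theorem range_T {A : FinStr I ar} {H : FinStr I' ar'} (h : Emb H (T j hle A)) :
    ∃ A' : FinStr I ar, Emb A' A ∧ T j hle A' = H := by
  obtain ⟨f, hf, hf'⟩ := h
  refine ⟨⟨H.1, fun i => {s | (f ∘ s : Fin (ar i) → Fin A.1) ∈ A.2 i}⟩, ⟨f, hf, fun i t => Iff.rfl⟩,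
    ?_⟩
  obtain ⟨n, H⟩ := H
  unfold T
  congr 1
  funext i'
  ext t
  exact (hf' i' t).symm

theorem mem_of_T (hj : Injective j) (hpos : ∀ i, 0 < ar i) {B : Set (FinStr I ar)} (hB : IsAge B)
    {A : FinStr I ar} (h : T j hle A ∈ T j hle '' B) : A ∈ B := by
  obtain ⟨A', hA', h1⟩ := h
  refine hB.hereditary _ _ hA' (emb_of_T j hle hj hpos ?_)
  rw [h1]
  exact Emb.refl _

theorem image_isAge {B : Set (FinStr I ar)} (hB : IsAge B) : IsAge (T j hle '' B) := by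
  refine ⟨hB.nonempty.image _, ?_, ?_⟩
  · rintro H _ ⟨A, hA, rfl⟩ h
    obtain ⟨A', h1, h2⟩ := range_T j hle h
    exact ⟨A', hB.hereditary _ _ hA h1, h2⟩
  · rintro _ ⟨A, hA, rfl⟩ _ ⟨A', hA', rfl⟩
    obtain ⟨C, hC, h1, h2⟩ := hB.directed _ hA _ hA'
    exact ⟨_, ⟨C, hC, rfl⟩, emb_T j hle h1, emb_T j hle h2⟩

theorem preimage_isAge (hj : Injective j) (hpos : ∀ i, 0 < ar i) {B : Set (FinStr I ar)}
    {C : Set (FinStr I' ar')} (hC : IsAge C) (hCB : C ⊆ T j hle '' B) :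
    IsAge {A : FinStr I ar | T j hle A ∈ C} := by
  refine ⟨?_, ?_, ?_⟩
  · obtain ⟨x, hx⟩ := hC.nonempty
    obtain ⟨A, _, rfl⟩ := hCB hx
    exact ⟨A, hx⟩
  · intro A A' hA' h
    exact hC.hereditary _ _ hA' (emb_T j hle h)
  · intro A hA A' hA'
    obtain ⟨x, hx, h1, h2⟩ := hC.directed _ hA _ hA'
    obtain ⟨D, _, rfl⟩ := hCB hx
    exact ⟨D, hx, emb_of_T j hle hj hpos h1, emb_of_T j hle hj hpos h2⟩

end

theorem tr : t_TR.{u} := by
  intro I I' ar ar' j hj hpos hle 𝒜 h𝒜 hwf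
  have himg : IsAge (T j hle '' 𝒜) := image_isAge j hle h𝒜
  -- the two maps
  let Φ : SubAge 𝒜 → SubAge (T j hle '' 𝒜) := fun B =>
    ⟨T j hle '' B.1, image_isAge j hle B.2.1, Set.image_mono B.2.2⟩
  let Ψ : SubAge (T j hle '' 𝒜) → SubAge 𝒜 := fun C =>
    ⟨{A | T j hle A ∈ C.1}, preimage_isAge j hle hj hpos C.2.1 C.2.2,
      fun A hA => mem_of_T j hle hj hpos h𝒜 (C.2.2 hA)⟩
  have hΦ : ∀ a b, Below a b → Below (Φ a) (Φ b) := by
    intro a b hab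
    refine ⟨Set.image_mono hab.1, fun h => hab.2 fun A hA => ?_⟩
    exact mem_of_T j hle hj hpos a.2.1 (h ⟨A, hA, rfl⟩)
  have hΨ : ∀ a b, Below a b → Below (Ψ a) (Ψ b) := by
    intro a b hab
    refine ⟨fun A hA => hab.1 hA, fun h => hab.2 fun x hx => ?_⟩
    obtain ⟨A, _, rfl⟩ := b.2.2 hx
    exact h hx
  have hwf' : IsWellFounded (SubAge (T j hle '' 𝒜)) Below :=
    ⟨Subrelation.wf (fun {a b} hab => hΨ a b hab) (InvImage.wf Ψ hwf.wf)⟩
  refine ⟨T j hle '' 𝒜, himg, hwf', ?_, ?_⟩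
  · apply le_antisymm
    · have h1 := rank_le_of_map Ψ hΨ (⟨T j hle '' 𝒜, himg, subset_rfl⟩ : SubAge (T j hle '' 𝒜))
      have h2 : Ψ ⟨T j hle '' 𝒜, himg, subset_rfl⟩ = ⟨𝒜, h𝒜, subset_rfl⟩ := by
        apply Subtype.ext
        ext A
        exact ⟨fun hA => mem_of_T j hle hj hpos h𝒜 hA, fun hA => ⟨A, hA, rfl⟩⟩
      rw [h2] at h1
      exact h1
    · exact rank_le_of_map Φ hΦ (⟨𝒜, h𝒜, subset_rfl⟩ : SubAge 𝒜)
  · intro hw S hS
    choose S₀ h1 h2 using hS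
    obtain ⟨a, b, hab, h3⟩ := hw S₀ h1
    refine ⟨a, b, hab, ?_⟩
    rw [← h2 a, ← h2 b]
    exact emb_T j hle h3

end Pool.Agent.Y475.CH
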